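import Pool.Agent.Work.MP_02cc39_co.PT.MainExpl

set_option autoImplicit false

/-!
# More pointed pseudotriangulations than triangulations for at most three interior points

`S` is a finite set of points of the plane, no three of them collinear, `n` its number of points.

* `inner S`: the points of `S` which are no vertices of the convex hull (the points `p` in the convex hull of `S` minus `p`);
* `Triang S`: the triangulations of `S` (the maximal noncrossing sets of edges between points of `S`);
* `PPT S`: the pointed pseudotriangulations of `S` (the maximal ones among the noncrossing sets of edges for which at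
  every point all edges are strictly on one side of a line through it), as in the frozen statement `S06915`.

If `S` has one, two or three interior points, the difference of the numbers of pointed pseudotriangulations and of
triangulations is at least the Catalan number of `n - 2` plus (for two and three interior points) the sum over the interior
points `x` of the number of triangulations of a set `f x` of `n` points with exactly one interior point, and this number is
explicit: its double is the Catalan number of `n - 1` minus the sum over the other points `q` of `S` of the product of the
Catalan numbers of the numbers of points of `S` on the two sides of the line `xq` (`side S x q` is the number of the points of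
`S` strictly to the left of the line from `x` to `q`). For one and two interior points this is an equality.
-/

namespace Pool.Agent.Results.MP_02cc39_co.AtMostThree

open Pool.Agent.Work.MP_02cc39_co Pool.Agent.Work.MP_02cc39_co.PT

theorem result : ∀ S : Finset (ℝ × ℝ), GenPos S → 1 ≤ (Pool.Agent.Work.MP_02cc39_co.inner S).card →
    (Pool.Agent.Work.MP_02cc39_co.inner S).card ≤ 3 →
    (Triang S).ncard < (PPT S).ncard ∧
    ∃ f : ℝ × ℝ → Finset (ℝ × ℝ), (∀ x ∈ Pool.Agent.Work.MP_02cc39_co.inner S, GenPos (f x) ∧ (f x).card = S.card ∧
      (Pool.Agent.Work.MP_02cc39_co.inner (f x)).card = 1 ∧
      2 * (Triang (f x)).ncard + ∑ q ∈ S.erase x, catalan (side S x q) * catalan (side S q x) = catalan (S.card - 1)) ∧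
      (Triang S).ncard + catalan (S.card - 2) + (if (Pool.Agent.Work.MP_02cc39_co.inner S).card = 1 then 0
        else ∑ x ∈ Pool.Agent.Work.MP_02cc39_co.inner S, (Triang (f x)).ncard) ≤ (PPT S).ncard ∧
      ((Pool.Agent.Work.MP_02cc39_co.inner S).card ≤ 2 →
        (Triang S).ncard + catalan (S.card - 2) + (if (Pool.Agent.Work.MP_02cc39_co.inner S).card = 1 then 0
          else ∑ x ∈ Pool.Agent.Work.MP_02cc39_co.inner S, (Triang (f x)).ncard) = (PPT S).ncard) := by
  intro S hS h1 h3
  obtain ⟨f, hf, hle, heq⟩ := main_three_x hS h1 h3
  refine ⟨?_, f, hf, hle, heq⟩
  have hc : 0 < catalan (S.card - 2) := by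
    have h4 := succ_mul_catalan_eq_centralBinom (S.card - 2)
    have h5 := Nat.centralBinom_pos (S.card - 2)
    rcases Nat.eq_zero_or_pos (catalan (S.card - 2)) with h6 | h6
    · rw [h6, mul_zero] at h4
      omega
    · exact h6
  omega

end Pool.Agent.Results.MP_02cc39_co.AtMostThree
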