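import Pool.Agent.Work.MP_02cc39_co.PT.MainExpl

set_option autoImplicit false

/-!
# Linear relations between the numbers of pseudotriangulations with given pointed points, for every point set

`S` is a finite set of points of the plane, no three of them collinear, `n` its number of points.

* `inner S`: the points of `S` which are no vertices of the convex hull;
* `PTV S V` (`V` a subset of `inner S`): the maximal ones among the noncrossing sets of edges between points of `S` for
  which at every point of `V` all edges are strictly on one side of a line through it. These are the
  pseudotriangulations of `S` whose pointed interior points are exactly the points of `V`; `PTV S ∅` is the set of the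
  triangulations, `PTV S (inner S)` the set of the pointed pseudotriangulations;
* `side S p q`: the number of points of `S` strictly to the left of the line from `p` to `q`.

The alternating sum over all `V` of the number of those which contain a given edge `pq` is the product of two Catalan
numbers, which depend only on the numbers of points on both sides of the line `pq`; it is the number of triangulations of a
convex polygon with `n` vertices which contain a diagonal with the same numbers of vertices on its two sides. The alternating
sum of all of them is the number of triangulations of a convex polygon with `n` vertices. The third relation gives the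
alternating sum over those `V` which do not contain a given interior point `z`.
-/

namespace Pool.Agent.Results.MP_02cc39_co.EdgeLaw

open Pool.Agent.Work.MP_02cc39_co Pool.Agent.Work.MP_02cc39_co.PT

theorem result : ∀ S : Finset (ℝ × ℝ), GenPos S → 2 ≤ S.card →
    (∀ p ∈ S, ∀ q ∈ S, p ≠ q →
      ∑ V ∈ (Pool.Agent.Work.MP_02cc39_co.inner S).powerset,
        (-1 : ℤ) ^ ((Pool.Agent.Work.MP_02cc39_co.inner S).card - V.card) *
          (({E | E ∈ PTV S V ∧ s(p, q) ∈ E}.ncard : ℕ) : ℤ) =
        (catalan (side S p q) : ℤ) * (catalan (side S q p) : ℤ)) ∧
    (∑ V ∈ (Pool.Agent.Work.MP_02cc39_co.inner S).powerset,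
      (-1 : ℤ) ^ ((Pool.Agent.Work.MP_02cc39_co.inner S).card - V.card) * ((PTV S V).ncard : ℤ) =
        (catalan (S.card - 2) : ℤ)) ∧
    (∀ z ∈ Pool.Agent.Work.MP_02cc39_co.inner S,
      2 * ∑ V ∈ ((Pool.Agent.Work.MP_02cc39_co.inner S).erase z).powerset,
        (-1 : ℤ) ^ (((Pool.Agent.Work.MP_02cc39_co.inner S).erase z).card - V.card) * ((PTV S V).ncard : ℤ) +
        ∑ q ∈ S.erase z, (catalan (side S z q) : ℤ) * (catalan (side S q z) : ℤ) = (catalan (S.card - 1) : ℤ)) :=
  fun _ hS hc => ⟨fun _ hp _ hq hpq => main_edge hS hp hq hpq, main_alt hS hc, fun _ hz => main_centre hS hz⟩

end Pool.Agent.Results.MP_02cc39_co.EdgeLaw
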