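import Pool.Agent.Work.MP_02cc39_co.Pin.Final

set_option autoImplicit false

/-!
# The monotonicity conjecture for the numbers of pseudotriangulations fails

`S` is a finite set of points of the plane, no three of them collinear (`GenPos S`).

* `PTV S V`: the maximal ones among the noncrossing sets of edges between points of `S` for which at every point of `V` all
  edges are strictly on one side of a line through this point, i.e. the pseudotriangulations of `S` in which, among the
  interior points, exactly the points of `V` are pointed. `PTV S ∅` are the triangulations, `PTV S S` the pointed
  pseudotriangulations, as in the frozen statement `S06915`.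

Aichholzer, Orden, Santos and Speckmann conjectured that the number of elements of `PTV S V` is monotone in the set `V` of
interior points; this would imply that there are at least as many pointed pseudotriangulations as triangulations.
This is false already for `∅ ⊆ {w}`: there is a set of 86 points with an interior point `w` such that fewer
pseudotriangulations are pointed exactly at `w` than there are triangulations, and the quotient of the two numbers can be
smaller than every number greater than `1/2`.
-/

namespace Pool.Agent.Results.MP_02cc39_co.MonotonicityFails

open Pool.Agent.Work.MP_02cc39_co Pool.Agent.Work.MP_02cc39_co.PT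

theorem result :
    (∃ S : Finset (ℝ × ℝ), GenPos S ∧ S.card = 86 ∧ ∃ w ∈ S,
      w ∈ interior (convexHull ℝ (S : Set (ℝ × ℝ))) ∧ (PTV S {w}).ncard < (PTV S ∅).ncard) ∧
    ∀ ε : ℝ, 0 < ε → ∃ S : Finset (ℝ × ℝ), GenPos S ∧ ∃ w ∈ S,
      w ∈ interior (convexHull ℝ (S : Set (ℝ × ℝ))) ∧
      ((PTV S {w}).ncard : ℝ) < (1 / 2 + ε) * ((PTV S ∅).ncard : ℝ) :=
  ⟨Pool.Agent.Work.MP_02cc39_co.Pin.mono_fails_86, Pool.Agent.Work.MP_02cc39_co.Pin.mono_half⟩

end Pool.Agent.Results.MP_02cc39_co.MonotonicityFails
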