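import Pool.Agent.Work.MP_02cc39_co.Product

set_option autoImplicit false

/-!
# Many more pointed pseudotriangulations than triangulations for shallow point sets

`S` is a finite set of points of the plane, no three of them collinear.

* `Triang S`: the maximal noncrossing sets of edges between points of `S`, that is the triangulations of `S`;
* `PPT S`: the maximal ones among the noncrossing sets of edges for which at every vertex all edges are on one side
  of a line through the vertex, that is the pointed pseudotriangulations of `S` (as in the frozen statement `S06915`);
* `inner S`: the points of `S` which are no vertices of the convex hull;
* `guards S p`: the points `b` of `S` such that `p` is not in the convex hull of `S` minus `{p, b}`.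

The hypothesis says that every interior point becomes a vertex of the convex hull after the deletion of one other
point.
-/

namespace Pool.Agent.Results.MP_02cc39_co.ShallowProduct

open Pool.Agent.Work.MP_02cc39_co

theorem result : ∀ S : Finset (ℝ × ℝ), GenPos S → (∀ p ∈ inner S, (guards S p).Nonempty) →
    (Triang S).ncard * ∏ p ∈ inner S, (guards S p).card ≤ (PPT S).ncard ∧
      ((Triang S).ncard = (PPT S).ncard ↔ inner S = ∅) :=
  fun _ hS h => product_eq hS h

end Pool.Agent.Results.MP_02cc39_co.ShallowProduct
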